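import Pool.Agent.Y698.Lf
import Pool.Agent.W189.NF.LSer
import Pool.Agent.Y19.QT.DefsK

/-!
# The complete `L`-series of a curve over a number field from the `L`-function without bad factors
-/

set_option autoImplicit false
set_option linter.all false

open NumberField IsDedekindDomain Filter Topology WeierstrassCurve

namespace Pool.Agent.N975.AF

open Pool.Agent.Y698 (AP min_count v_unit)
open Pool.Agent.W189.NF (aV eV redMap finite_res card_res redMap_eq_zero aLoc eLoc
  redMap_surjective LSeries_hasProd)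
open Pool.Agent.H921R2.TatePole (nm two_le_nm)
open Pool.Agent.Y19.QT (IsLFunK av qv)

/-- the curve `y² = x³ + a x + b` -/
def EC (K : Type) [Field K] (a b : ℤ) : WeierstrassCurve K :=
  { a₁ := 0, a₂ := 0, a₃ := 0, a₄ := (a : K), a₆ := (b : K) }

/-- the curve over a ring -/
def ER (R : Type) [CommRing R] (a b : ℤ) : WeierstrassCurve R :=
  { a₁ := 0, a₂ := 0, a₃ := 0, a₄ := (a : R), a₆ := (b : R) }

theorem ER_map {R S : Type} [CommRing R] [CommRing S] (f : R →+* S) (a b : ℤ) :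
    (ER R a b).map f = ER S a b := by
  ext <;> simp [ER]

theorem ER_Δ (R : Type) [CommRing R] (a b : ℤ) :
    (ER R a b).Δ = ((-16 * (4 * a ^ 3 + 27 * b ^ 2) : ℤ) : R) := by
  simp only [ER, WeierstrassCurve.Δ, WeierstrassCurve.b₂, WeierstrassCurve.b₄,
    WeierstrassCurve.b₆, WeierstrassCurve.b₈]
  push_cast
  ring

theorem card_ap {k k' : Type} [Field k'] [CommRing k] (e : k ≃+* k') (a b : ℤ) :
    Nat.card (AP (ER k' a b)) =
      Nat.card {x : k × k // x.2 ^ 2 = x.1 ^ 3 + (a : k) * x.1 + (b : k)} := by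
  symm
  refine Nat.card_congr (Equiv.subtypeEquiv (Equiv.prodCongr e.toEquiv e.toEquiv) ?_)
  intro x
  rw [WeierstrassCurve.Affine.equation_iff]
  simp only [ER, Equiv.prodCongr_apply, Prod.map, RingEquiv.toEquiv_eq_coe, RingEquiv.coe_toEquiv]
  rw [← e.injective.eq_iff]
  simp only [map_add, map_mul, map_pow, map_intCast]
  constructor
  · intro h
    linear_combination h
  · intro h
    linear_combination h

variable {K : Type} [Field K] [NumberField K]

theorem isUnit_of_notMem {v : HeightOneSpectrum (𝓞 K)} {z : ℤ} (hx : (z : 𝓞 K) ∉ v.asIdeal) :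
    IsUnit (z : v.adicCompletionIntegers K) := by
  rw [← IsLocalRing.residue_ne_zero_iff_isUnit]
  intro h
  refine hx ((redMap_eq_zero v _).1 ?_)
  rw [map_intCast]
  rw [map_intCast] at h
  exact h

/-- the residue fields -/
noncomputable def resE (v : HeightOneSpectrum (𝓞 K)) :
    (𝓞 K ⧸ v.asIdeal) ≃+* IsLocalRing.ResidueField (v.adicCompletionIntegers K) :=
  RingEquiv.ofBijective (Ideal.Quotient.lift v.asIdeal (redMap v)
    (fun a ha => (redMap_eq_zero v a).2 ha)) ⟨by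
      rw [injective_iff_map_eq_zero]
      intro x hx
      obtain ⟨a, rfl⟩ := Ideal.Quotient.mk_surjective x
      rw [Ideal.Quotient.lift_mk] at hx
      exact Ideal.Quotient.eq_zero_iff_mem.2 ((redMap_eq_zero v a).1 hx), by
      intro y
      obtain ⟨a, rfl⟩ := redMap_surjective v y
      exact ⟨Ideal.Quotient.mk _ a, rfl⟩⟩

theorem nm_qv (v : HeightOneSpectrum (𝓞 K)) : nm v = qv K v := by
  unfold Pool.Agent.H921R2.TatePole.nm Pool.Agent.Y19.QT.qv
  rw [Ideal.absNorm_apply, Submodule.cardQuot_apply]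

/-- the local factors at the good places -/
theorem loc_good {a b D : ℤ} (v : HeightOneSpectrum (𝓞 K))
    (hv : ((2 * (4 * a ^ 3 + 27 * b ^ 2) * D : ℤ) : 𝓞 K) ∉ v.asIdeal) :
    aV (EC K a b) v = av K a b v ∧ eV (EC K a b) v = qv K v := by
  have hfin := finite_res v
  have h16 : ((-16 * (4 * a ^ 3 + 27 * b ^ 2) : ℤ) : 𝓞 K) ∉ v.asIdeal := by
    have hp := v.isPrime
    intro h
    apply hv
    push_cast at h ⊢
    rcases hp.mem_or_mem h with h1 | h1
    · have h2 : (2 : 𝓞 K) ^ 4 ∈ v.asIdeal := by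
        have e : (2 : 𝓞 K) ^ 4 = -(-16) := by norm_num
        rw [e, Ideal.neg_mem_iff]
        exact h1
      have h3 := hp.mem_of_pow_mem _ h2
      exact Ideal.mul_mem_right _ _ (Ideal.mul_mem_right _ _ h3)
    · exact Ideal.mul_mem_right _ _ (Ideal.mul_mem_left _ _ h1)
  have hΔ : IsUnit (ER (v.adicCompletionIntegers K) a b).Δ := by
    rw [ER_Δ]
    exact isUnit_of_notMem h16
  have hW : (EC K a b).baseChange (v.adicCompletion K) =
      (ER (v.adicCompletionIntegers K) a b).map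
        (algebraMap (v.adicCompletionIntegers K) (v.adicCompletion K)) := by
    ext <;> simp [EC, ER]
  obtain ⟨h1, h2⟩ := min_count (v.adicCompletionIntegers K) hΔ hW
  unfold Pool.Agent.W189.NF.aV Pool.Agent.W189.NF.eV
  rw [h1, h2, card_res, nm_qv, ER_map, card_ap (resE v)]
  exact ⟨rfl, rfl⟩

/-- the local factor does not vanish at `s = 1` -/
theorem fac_ne (E : WeierstrassCurve K) (v : HeightOneSpectrum (𝓞 K)) :
    (1 - (aV E v : ℂ) * (nm v : ℂ) ^ (-(1 : ℂ)) + (eV E v : ℂ) *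
      ((nm v : ℂ) ^ (-(1 : ℂ))) ^ 2) ≠ 0 := by
  have hfin := finite_res v
  have hq : 2 ≤ nm v := two_le_nm v
  have hqc : (nm v : ℂ) ≠ 0 := by
    have : nm v ≠ 0 := by omega
    exact_mod_cast this
  rw [Complex.cpow_neg_one]
  have key : (nm v : ℂ) ^ 2 * (1 - (aV E v : ℂ) * (nm v : ℂ)⁻¹ + (eV E v : ℂ) *
      ((nm v : ℂ)⁻¹) ^ 2) = (((nm v : ℤ) ^ 2 - aV E v * (nm v : ℤ) + eV E v : ℤ) : ℂ) := by
    push_cast
    field_simp
  intro h0
  rw [h0, mul_zero] at key
  have key2 : (nm v : ℤ) ^ 2 - aV E v * (nm v : ℤ) + eV E v = 0 := by exact_mod_cast key.symm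
  revert key2
  unfold Pool.Agent.W189.NF.aV Pool.Agent.W189.NF.eV Pool.Agent.W189.NF.aLoc
    Pool.Agent.W189.NF.eLoc
  rw [card_res]
  have hq' : (2 : ℤ) ≤ nm v := by exact_mod_cast hq
  split_ifs
  · have h1 := (Pool.Agent.W189.NF.point_card
      (((E.baseChange (v.adicCompletion K)).minimal (v.adicCompletionIntegers K)).reduction
        (v.adicCompletionIntegers K))).1
    have h2 : (1 : ℤ) ≤ (Nat.card
      (((E.baseChange (v.adicCompletion K)).minimal (v.adicCompletionIntegers K)).reduction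
        (v.adicCompletionIntegers K)).toAffine.Point : ℕ) := by exact_mod_cast h1
    intro h3
    nlinarith
  · intro h3
    nlinarith
  · intro h3
    nlinarith
  · intro h3
    nlinarith

/-- the factor -/
noncomputable def PV (E : WeierstrassCurve K) (v : HeightOneSpectrum (𝓞 K)) (s : ℂ) : ℂ :=
  1 - (aV E v : ℂ) * (nm v : ℂ) ^ (-s) + (eV E v : ℂ) * ((nm v : ℂ) ^ (-s)) ^ 2

theorem PV_diff (E : WeierstrassCurve K) (v : HeightOneSpectrum (𝓞 K)) :
    Differentiable ℂ (PV E v) := by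
  have hqc : (nm v : ℂ) ≠ 0 := by
    have : nm v ≠ 0 := by
      have := two_le_nm v
      omega
    exact_mod_cast this
  have h1 : Differentiable ℂ fun s : ℂ => (nm v : ℂ) ^ (-s) := by
    intro s
    exact DifferentiableAt.const_cpow (by fun_prop) (Or.inl hqc)
  unfold PV
  exact ((differentiable_const _).sub ((differentiable_const _).mul h1)).add
    ((differentiable_const _).mul (h1.pow 2))

theorem bad_finite {z : ℤ} (hz : z ≠ 0) :
    {v : HeightOneSpectrum (𝓞 K) | (z : 𝓞 K) ∈ v.asIdeal}.Finite := by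
  have h0 : (Ideal.span {(z : 𝓞 K)}) ≠ 0 := by
    rw [Ideal.zero_eq_bot, Ne, Ideal.span_singleton_eq_bot]
    exact_mod_cast hz
  refine (Ideal.finite_factors h0).subset ?_
  intro v hv
  show v.asIdeal ∣ Ideal.span {(z : 𝓞 K)}
  rw [Ideal.dvd_span_singleton]
  exact hv

/-- **the complete `L`-series** -/
theorem full {a b D : ℤ} (hab : 4 * a ^ 3 + 27 * b ^ 2 ≠ 0) (hD : D ≠ 0) {F : ℂ → ℂ}
    (hF : IsLFunK K a b D F) (h1 : F 1 ≠ 0) :
    ∃ G : ℂ → ℂ, MeromorphicOn G Set.univ ∧ AnalyticAt ℂ G 1 ∧ G 1 ≠ 0 ∧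
      ∀ s : ℂ, 2 < s.re → G s = (EC K a b).LSeries s := by
  classical
  have hz : (2 * (4 * a ^ 3 + 27 * b ^ 2) * D : ℤ) ≠ 0 :=
    mul_ne_zero (mul_ne_zero (by norm_num) hab) hD
  have hfin := bad_finite (K := K) hz
  set S : Finset (HeightOneSpectrum (𝓞 K)) := hfin.toFinset with hS
  have hSm : ∀ v, v ∈ S ↔ ((2 * (4 * a ^ 3 + 27 * b ^ 2) * D : ℤ) : 𝓞 K) ∈ v.asIdeal := by
    intro v
    rw [hS, Set.Finite.mem_toFinset]
    exact Iff.rfl
  obtain ⟨hd, hp⟩ := hF
  have hPa : ∀ v, AnalyticOnNhd ℂ (PV (EC K a b) v) Set.univ := fun v s _ =>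
    (PV_diff (EC K a b) v).analyticAt s
  refine ⟨fun s => F s * ∏ v ∈ S, (PV (EC K a b) v s)⁻¹, ?_, ?_, ?_, ?_⟩
  · intro s _
    refine MeromorphicAt.mul (hd.analyticAt s).meromorphicAt ?_
    refine MeromorphicAt.fun_prod fun v _ => ?_
    exact (hPa v s trivial).meromorphicAt.inv
  · refine AnalyticAt.mul (hd.analyticAt 1) ?_
    refine Finset.analyticAt_fun_prod S fun v _ => ?_
    exact (hPa v 1 trivial).inv (fac_ne _ v)
  · refine mul_ne_zero h1 (Finset.prod_ne_zero_iff.2 fun v _ => ?_)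
    exact inv_ne_zero (fac_ne _ v)
  · intro s hs
    have h2 := hp s (by linarith)
    have h3 : HasProd (fun v : HeightOneSpectrum (𝓞 K) =>
        if v ∈ S then (PV (EC K a b) v s)⁻¹ else 1) (∏ v ∈ S, (PV (EC K a b) v s)⁻¹) := by
      have h4 : HasProd (fun v : HeightOneSpectrum (𝓞 K) =>
          if v ∈ S then (PV (EC K a b) v s)⁻¹ else 1)
          (∏ v ∈ S, (if v ∈ S then (PV (EC K a b) v s)⁻¹ else 1)) :=
        hasProd_prod_of_ne_finset_one (fun v hv => if_neg hv)
      have e : ∏ v ∈ S, (if v ∈ S then (PV (EC K a b) v s)⁻¹ else 1) =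
          ∏ v ∈ S, (PV (EC K a b) v s)⁻¹ :=
        Finset.prod_congr rfl fun v hv => if_pos hv
      rwa [e] at h4
    have h5 := h2.mul h3
    have h6 := (LSeries_hasProd (EC K a b) hs).2
    refine h5.unique ?_
    convert h6 using 1
    funext v
    by_cases hv : ((2 * (4 * a ^ 3 + 27 * b ^ 2) * D : ℤ) : 𝓞 K) ∈ v.asIdeal
    · rw [if_pos hv, if_pos ((hSm v).2 hv), one_mul]
      rfl
    · rw [if_neg hv, if_neg (fun h => hv ((hSm v).1 h)), mul_one]
      obtain ⟨e1, e2⟩ := loc_good v hv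
      rw [e1, e2, nm_qv]
      congr 2
      have hq : (qv K v : ℂ) ≠ 0 := by
        have : nm v ≠ 0 := by
          have := two_le_nm v
          omega
        rw [nm_qv] at this
        exact_mod_cast this
      rw [← Complex.cpow_nat_mul, sub_eq_add_neg, Complex.cpow_add _ _ hq, Complex.cpow_one]
      push_cast
      congr 2
      ring

/-- `F` is a meromorphic continuation of the `L`-series of `E` to `ℂ` -/
def Cont (E : WeierstrassCurve K) (F : ℂ → ℂ) : Prop :=
  MeromorphicOn F Set.univ ∧ ∀ s : ℂ, 2 < s.re → F s = E.LSeries s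

theorem cont_congr {E : WeierstrassCurve K} {F G : ℂ → ℂ} (hF : Cont E F) (hG : Cont E G) (x : ℂ) :
    F =ᶠ[𝓝[≠] x] G := by
  have hm : MeromorphicOn (F - G) Set.univ := hF.1.sub hG.1
  have h3 : meromorphicOrderAt (F - G) (3 : ℂ) = ⊤ := by
    rw [meromorphicOrderAt_eq_top_iff]
    have hopen : IsOpen {z : ℂ | 2 < z.re} := isOpen_lt continuous_const Complex.continuous_re
    have hmem : {z : ℂ | 2 < z.re} ∈ 𝓝 (3 : ℂ) := hopen.mem_nhds (by norm_num)
    filter_upwards [nhdsWithin_le_nhds hmem] with s hs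
    simp only [Pi.sub_apply]
    rw [hF.2 s hs, hG.2 s hs, sub_self]
  have hx : meromorphicOrderAt (F - G) x = ⊤ := by
    by_contra hne
    exact hm.meromorphicOrderAt_ne_top_of_isPreconnected isPreconnected_univ
      (Set.mem_univ x) (Set.mem_univ 3) hne h3
  rw [meromorphicOrderAt_eq_top_iff] at hx
  filter_upwards [hx] with s hs
  exact sub_eq_zero.1 hs

/-- **the order at `s = 1`** -/
theorem order_zero {a b D : ℤ} (hab : 4 * a ^ 3 + 27 * b ^ 2 ≠ 0) (hD : D ≠ 0) {F : ℂ → ℂ}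
    (hF : IsLFunK K a b D F) (h1 : F 1 ≠ 0) :
    (∃ G : ℂ → ℂ, Cont (EC K a b) G) ∧
    ∀ G : ℂ → ℂ, Cont (EC K a b) G → meromorphicOrderAt G 1 = 0 := by
  obtain ⟨G, g1, g2, g3, g4⟩ := full hab hD hF h1
  refine ⟨⟨G, g1, g4⟩, fun G' h => ?_⟩
  rw [meromorphicOrderAt_congr (cont_congr h ⟨g1, g4⟩ 1), g2.meromorphicOrderAt_eq,
    g2.analyticOrderAt_eq_zero.2 g3]
  rfl

end Pool.Agent.N975.AF
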