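import Pool.Agent.N975.AF.Full
import Pool.Agent.Y687.MQ.Abs
import Pool.Agent.N875.X15.Short

/-!
# The rank conjecture with rank zero over multiquadratic fields, complete `L`-series, any curve
-/

set_option autoImplicit false
set_option linter.all false

open NumberField WeierstrassCurve

namespace Pool.Agent.N975.AF

open Pool.Agent.N875.X15 (Fin2)
open Pool.Agent.Y687.MQ (ZB ZB_scale mq_zero)
open Pool.Agent.Y687 (RankBSD)

theorem disc_tw {α β m : ℤ} (h : 4 * α ^ 3 + 27 * β ^ 2 ≠ 0) (hm : m ≠ 0) :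
    4 * (α * m ^ 2) ^ 3 + 27 * (β * m ^ 3) ^ 2 ≠ 0 := by
  have e : 4 * (α * m ^ 2) ^ 3 + 27 * (β * m ^ 3) ^ 2 = (4 * α ^ 3 + 27 * β ^ 2) * m ^ 6 := by
    ring
  rw [e]
  exact mul_ne_zero h (pow_ne_zero 6 hm)

theorem EC_Δ {F : Type} [Field F] (a b : ℤ) :
    (EC F a b).Δ = ((-16 * (4 * a ^ 3 + 27 * b ^ 2) : ℤ) : F) := by
  simp only [EC, WeierstrassCurve.Δ, WeierstrassCurve.b₂, WeierstrassCurve.b₄,
    WeierstrassCurve.b₆, WeierstrassCurve.b₈]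
  push_cast
  ring

theorem EC_Δ_ne {F : Type} [Field F] [CharZero F] {a b : ℤ} (h : 4 * a ^ 3 + 27 * b ^ 2 ≠ 0) :
    (EC F a b).Δ ≠ 0 := by
  rw [EC_Δ]
  exact_mod_cast mul_ne_zero (by norm_num : (-16 : ℤ) ≠ 0) h

/-- the points of a curve with finitely many rational points -/
theorem finPts {a b : ℤ} (hab : 4 * a ^ 3 + 27 * b ^ 2 ≠ 0)
    (h : Finite (EC ℚ a b).toAffine.Point) :
    {q : ℚ × ℚ | q.2 ^ 2 = q.1 ^ 3 + (a : ℚ) * q.1 + (b : ℚ)}.Finite := by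
  have hE : (EC ℚ a b).IsElliptic := ⟨isUnit_iff_ne_zero.2 (EC_Δ_ne hab)⟩
  have key : ∀ q : {q : ℚ × ℚ | q.2 ^ 2 = q.1 ^ 3 + (a : ℚ) * q.1 + (b : ℚ)},
      (EC ℚ a b).toAffine.Nonsingular q.1.1 q.1.2 := by
    intro q
    refine WeierstrassCurve.Affine.equation_iff_nonsingular.1 ?_
    rw [WeierstrassCurve.Affine.equation_iff]
    have h2 := q.2
    simp only [Set.mem_setOf_eq] at h2
    simp only [EC]
    linear_combination h2
  have hinj : Function.Injective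
      (fun q : {q : ℚ × ℚ | q.2 ^ 2 = q.1 ^ 3 + (a : ℚ) * q.1 + (b : ℚ)} =>
        (WeierstrassCurve.Affine.Point.some q.1.1 q.1.2 (key q) :
          (EC ℚ a b).toAffine.Point)) := by
    intro q q' hq
    have h3 := hq
    simp only [WeierstrassCurve.Affine.Point.some.injEq] at h3
    exact Subtype.ext (Prod.ext h3.1 h3.2)
  have h5 := Finite.of_injective _ hinj
  exact Set.toFinite _

/-- rank and order zero from the rank form and the finiteness -/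
theorem zb_one {a b : ℤ} (hab : 4 * a ^ 3 + 27 * b ^ 2 ≠ 0) (hB : RankBSD a b)
    (hF : Finite (EC ℚ a b).toAffine.Point) : ZB a b := by
  obtain ⟨F, h1, h2, h3, h4⟩ := hB
  exact ⟨⟨F, ⟨h1, h2⟩, h3⟩, finPts hab hF⟩

/-- the scaling of the equation -/
theorem fin2_scale {α β m k : ℤ} (h : 4 * α ^ 3 + 27 * β ^ 2 ≠ 0) (hm : m ≠ 0) (hk : k ≠ 0) :
    Fin2 (EC ℚ (α * (m * k ^ 2) ^ 2) (β * (m * k ^ 2) ^ 3)) ↔ Fin2 (EC ℚ (α * m ^ 2) (β * m ^ 3)) := by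
  have hkq : (k : ℚ) ≠ 0 := by exact_mod_cast hk
  have hvr : Pool.Agent.Y700.VR (EC ℚ (α * (m * k ^ 2) ^ 2) (β * (m * k ^ 2) ^ 3))
      (EC ℚ (α * m ^ 2) (β * m ^ 3)) (k : ℚ) 0 0 0 := by
    refine ⟨hkq, ?_, ?_, ?_, ?_, ?_⟩ <;> simp [EC] <;> ring
  have hT : Pool.Agent.Z702.S_TRN := Pool.Agent.Z932.Z702.t_TRN
  obtain ⟨h1, h2, -⟩ := hT _ _ _ _ _ _ hvr (EC_Δ_ne (disc_tw h hm))
  exact and_congr h1 h2

/-- squarefree part of a nonzero integer -/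
theorem sqf_rep {z : ℤ} (hz : z ≠ 0) : ∃ N k : ℤ, Squarefree N ∧ k ≠ 0 ∧ z = N * k ^ 2 := by
  obtain ⟨a, b, -, hb, h1, h2⟩ := Nat.sq_mul_squarefree_of_pos (Int.natAbs_pos.2 hz)
  rcases Int.natAbs_eq z with h3 | h3
  · refine ⟨a, b, Int.squarefree_natCast.2 h2, by exact_mod_cast hb.ne', ?_⟩
    rw [h3, ← h1]
    push_cast
    ring
  · refine ⟨-a, b, ?_, by exact_mod_cast hb.ne', ?_⟩
    · rw [← Int.squarefree_natAbs, Int.natAbs_neg, Int.natAbs_natCast]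
      exact h2
    · rw [h3, ← h1]
      push_cast
      ring

/-- the rank form for the twists with finitely many points and trivial `Ш[2]` -/
def Law (α β : ℤ) : Prop := ∀ N : ℤ, Squarefree N → Fin2 (EC ℚ (α * N ^ 2) (β * N ^ 3)) →
  RankBSD (α * N ^ 2) (β * N ^ 3)

theorem zb_all {α β : ℤ} (hab : 4 * α ^ 3 + 27 * β ^ 2 ≠ 0) (H : Law α β) {z : ℤ} (hz : z ≠ 0)
    (h : Fin2 (EC ℚ (α * z ^ 2) (β * z ^ 3))) : ZB (α * z ^ 2) (β * z ^ 3) := by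
  obtain ⟨N, k, hN, hk, rfl⟩ := sqf_rep hz
  rw [fin2_scale hab hN.ne_zero hk] at h
  exact ZB_scale hab hN.ne_zero hk (zb_one (disc_tw hab hN.ne_zero) (H N hN h) h.1)

/-- **the rank conjecture over multiquadratic fields** -/
theorem main {α β : ℤ} (hab : 4 * α ^ 3 + 27 * β ^ 2 ≠ 0) (H : Law α β) {r : ℕ} {d : Fin r → ℤ}
    {m : ℤ} (hm : m ≠ 0)
    (hind : ∀ T : Finset (Fin r), T.Nonempty → ¬ IsSquare (∏ i ∈ T, d i))
    (hg : ∀ T : Finset (Fin r), Fin2 (EC ℚ (α * (m * ∏ i ∈ T, d i) ^ 2)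
      (β * (m * ∏ i ∈ T, d i) ^ 3))) (K : Type) [Field K] [NumberField K] (x : Fin r → K)
    (hx : ∀ i, x i ^ 2 = (d i : K)) (hK : IntermediateField.adjoin ℚ (Set.range x) = ⊤) :
    Module.finrank ℚ K = 2 ^ r ∧ Finite (EC K (α * m ^ 2) (β * m ^ 3)).toAffine.Point ∧
    (∃ G : ℂ → ℂ, Cont (EC K (α * m ^ 2) (β * m ^ 3)) G) ∧
    ∀ G : ℂ → ℂ, Cont (EC K (α * m ^ 2) (β * m ^ 3)) G → meromorphicOrderAt G 1 = 0 := by
  classical
  have hd0 : ∀ T : Finset (Fin r), ∏ i ∈ T, d i ≠ 0 := by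
    intro T
    rw [Finset.prod_ne_zero_iff]
    intro i _ h0
    refine hind {i} (Finset.singleton_nonempty i) ?_
    rw [Finset.prod_singleton, h0]
    exact ⟨0, rfl⟩
  have hdeg : Module.finrank ℚ K = 2 ^ r := by
    have := Pool.Agent.Y73.QMQ1.gal_of hx hK
    rw [← IsGalois.card_aut_eq_finrank]
    exact Pool.Agent.Y73.QMQ1.card_gal hind hx hK
  obtain ⟨⟨F, hF, hF1⟩, hfin⟩ := mq_zero hind (disc_tw hab hm) (fun T => by
    have e1 : α * m ^ 2 * (∏ i ∈ T, d i) ^ 2 = α * (m * ∏ i ∈ T, d i) ^ 2 := by ring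
    have e2 : β * m ^ 3 * (∏ i ∈ T, d i) ^ 3 = β * (m * ∏ i ∈ T, d i) ^ 3 := by ring
    rw [e1, e2]
    exact zb_all hab H (mul_ne_zero hm (hd0 T)) (hg T)) K x hx hK
  obtain ⟨h1, h2⟩ := order_zero (disc_tw hab hm) (hd0 Finset.univ) hF hF1
  exact ⟨hdeg, hfin, h1, h2⟩

end Pool.Agent.N975.AF
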